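import Pool.Agent.H.MP_8a71fe_al.D

set_option autoImplicit false

namespace Pool.Agent.Results.MP_76aa63_al.Yes

open Finset Pool.Agent.HShift Pool.Agent.CharDep

def R (l : ℕ) (a e : Fin 8 → ℕ) (p q : ℕ) : Prop :=
  ∃ j ≤ 2 * l, j + p ≤ a 0 ∧ 2 * l + q ≤ a 1 + j ∧
    (j % 2 = 0 ∧ Z a e 0 ∅ ∨ ∃ g ∈ mm :: J1, Z a e 0 g)

lemma q_iff {l : ℕ} {a e : Fin 8 → ℕ} : Q 1 l a e ↔ R l a e (e 0) (e 1) := by
  constructor
  · rintro ⟨s, t, g, h1, h2, h3, h4, h5⟩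
    refine ⟨s + t, by omega, by omega, by omega, ?_⟩
    rcases h2 with ⟨h2, rfl⟩ | ⟨-, h2⟩
    · rcases s with _ | s
      · exact .inl ⟨by omega, h5⟩
      · exact .inr ⟨mm, List.mem_cons_self, Z_mm.1 (h5.mono (by omega))⟩
    · exact .inr ⟨g, List.mem_cons_of_mem _ h2, fun j hj => (h5 j hj).trans' (by simp)⟩
  · rintro ⟨j, h1, h2, h3, h4⟩
    rcases j.mod_two_eq_zero_or_one with h | h
    · exact ⟨0, j, ∅, by omega, .inl ⟨h, rfl⟩, by omega, by omega,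
        h4.elim (·.2) fun ⟨_, _, h⟩ => h.mono le_rfl⟩
    · obtain ⟨g, h5, h6⟩ := h4.resolve_left (by omega)
      rcases List.mem_cons.1 h5 with rfl | h5
      · exact ⟨1, j - 1, ∅, by omega, .inl ⟨by omega, rfl⟩, by omega, by omega, Z_mm.2 h6⟩
      · exact ⟨0, j, g, by omega, .inr ⟨h, h5⟩, by omega, by omega, h6⟩

lemma vanR (l : ℕ) (a : Fin 8 → ℕ) (p q i : ℕ) (hi : 3 ≤ i) :
    Van ℚ (fun F => (R l a (ch F) p q ∧ 0 ∉ F) ∧ 1 ∉ F) i := by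
  have e : ∀ F : Finset (Fin 8), 0 ∉ F → 1 ∉ F → F ⊆ ZZ := fun F h h' j hj =>
    (mem_ZZ j).2 ⟨fun e => h (e ▸ hj), fun e => h' (e ▸ hj)⟩
  have e1 : ∀ j ∈ ZZ, ∀ F : Finset (Fin 8), 0 ∉ F → 1 ∉ F → 0 ∉ insert j F ∧ 1 ∉ insert j F :=
    fun j hj F h h' => by simpa [h, h', eq_comm] using (mem_ZZ j).1 hj
  by_cases h : ∃ j ≤ 2 * l, j + p ≤ a 0 ∧ 2 * l + q ≤ a 1 + j ∧ j % 2 = 0
  · obtain ⟨j, h1, h2, h3, h4⟩ := h
    intro c hc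
    by_cases h0 : c = 0
    · exact fun _ => ⟨0, fun _ h => absurd rfl h, bd_zero.trans h0.symm⟩
    obtain ⟨G, hG⟩ := Function.ne_iff.1 h0
    obtain ⟨⟨⟨⟨_, -, -, -, h5⟩, h6⟩, h7⟩, h8⟩ := hc G hG
    obtain ⟨v, hv⟩ := card_pos.1 (show 0 < #G by omega)
    have h9 := (h5.elim (·.2) fun ⟨_, _, h⟩ => h.mono le_rfl) v (e G h6 h7 hv)
    rw [ch, if_pos hv] at h9
    exact van_cone v (fun F _ ⟨⟨⟨_, _, _, _, h⟩, h'⟩, h''⟩ => ⟨⟨⟨j, h1, h2, h3, .inl ⟨h4,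
      (h.elim (·.2) fun ⟨_, _, h⟩ => h.mono le_rfl).cone h9⟩⟩, (e1 v (e G h6 h7 hv) F h' h'').1⟩,
        (e1 v (e G h6 h7 hv) F h' h'').2⟩) c hc
  by_cases h' : ∃ v ∈ ZZ, 2 ≤ a v
  · obtain ⟨v, hv, h'⟩ := h'
    exact van_cone v fun F _ ⟨⟨⟨j, h1, h2, h3, h4⟩, h5⟩, h6⟩ => ⟨⟨⟨j, h1, h2, h3, h4.imp
      (fun h => ⟨h.1, h.2.cone (by simp; omega)⟩) fun ⟨g, h7, h8⟩ =>
        ⟨g, h7, h8.cone (by split_ifs <;> omega)⟩⟩, (e1 v hv F h5 h6).1⟩, (e1 v hv F h5 h6).2⟩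
  have e2 : ∀ F, (R l a (ch F) p q ∧ 0 ∉ F) ∧ 1 ∉ F → RP F :=
    fun F ⟨⟨⟨j, h1, h2, h3, h4⟩, h5⟩, h6⟩ => by
      obtain ⟨g, h7, h8⟩ := h4.resolve_left fun h4 => h ⟨j, h1, h2, h3, h4.1⟩
      refine ⟨g, h7, fun v hv => mem_sdiff.2 ⟨e F h5 h6 hv, fun h9 => h' ⟨v, e F h5 h6 hv, ?_⟩⟩⟩
      simpa [ch, hv, h9] using h8 v (e F h5 h6 hv)
  rcases hi.eq_or_lt with rfl | hi
  · exact fun c h2 h3 => ⟨0, fun _ h => absurd rfl h,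
      bd_zero.trans (cyc0 c (fun F hF => ⟨e2 F (h2 F hF).1, (h2 F hF).2⟩) h3).symm⟩
  · exact van_small fun F hF => ((e2 F hF).card.trans_lt hi).ne

lemma R_ins {l p q : ℕ} {a : Fin 8 → ℕ} {F : Finset (Fin 8)} {v : Fin 8} (h : v = 0 ∨ v = 1) :
    R l a (ch (insert v F)) p q ↔ R l a (ch F) p q := by simp only [R, Z_ins h]

lemma vanQ (l : ℕ) (a : Fin 8 →₀ ℕ) : Van ℚ (Dl (Sm (BB 1) l) a) 5 := by
  have hD : Down (Dl (Sm (BB 1) l) a) := Dl_down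
  refine van_ld hD 1 (van_ld (fun F G h h' => ⟨hD _ _ h.1 h', fun h1 => h.2 (h' h1)⟩) 0 ?_
    fun j hj => ?_) fun j hj => van_ld (fun F G h h' => ⟨hD _ _ h.1 (insert_subset_insert _ h'),
      fun h1 => h.2 (h' h1)⟩) 0 ?_ fun i hi => ?_ <;> simp only [dl_eq le_rfl, q_iff]
  · convert vanR l a 0 0 5 (by omega) using 2 with F
    by_cases h : 0 ∈ F <;> by_cases h' : 1 ∈ F <;> simp [ch, *]
  · convert vanR l a 1 0 j (by omega) using 2 with F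
    by_cases h : 0 ∈ F <;> by_cases h' : 1 ∈ F <;> simp [ch_ins, R_ins, show ch F = fun j =>
      if j ∈ F then 1 else 0 from rfl, *]
  · convert vanR l a 0 1 j (by omega) using 2 with F
    by_cases h : 0 ∈ F <;> by_cases h' : 1 ∈ F <;> simp [ch_ins, R_ins, show ch F = fun j =>
      if j ∈ F then 1 else 0 from rfl, *]
  · convert vanR l a 1 1 i (by omega) using 2 with F
    by_cases h : 0 ∈ F <;> by_cases h' : 1 ∈ F <;> simp [ch_ins, R_ins, *]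

def D0 (F : Finset (Fin 8)) : Prop := 0 ∉ F ∨ 1 ∉ F ∨ RP (F ∩ ZZ)

instance : DecidablePred D0 := fun _ => instDecidableOr

lemma d0 : ¬ Van (ZMod 2) D0 5 :=
  not_van (fun F => if #F = 5 ∧ (RP (F \ {0, 1}) ∨ 2 ∈ F ∧ #(F ∩ {0, 1}) = 1 ∧ RP (F \ {0, 1, 2}))
    then 1 else 0) (by unfold Supp; decide +kernel) (funext (by decide +kernel)) {0, 1, 2, 3, 5}
    (by decide) (by decide)

lemma dl_d0 {l : ℕ} (hl : 1 ≤ l) : Dl (Sm (BB 1) l) (pt 2 (2 * l)) = D0 := by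
  rw [dl_eq le_rfl]
  ext F
  have e : Z (pt 2 (2 * l)) (ch F) 0 ∅ := Z_pt.2 (by simp)
  simp only [q_iff, R, pt0, pt1, Z_pt, D0, ch]
  refine ⟨fun ⟨j, _, h2, h3, h4⟩ => or_iff_not_imp_left.2 fun h => or_iff_not_imp_left.2 fun h' =>
    h4.resolve_left ?_, ?_⟩
  · rw [if_pos (not_not.1 h)] at h2
    rw [if_pos (not_not.1 h')] at h3
    omega
  · rintro (h | h | h)
    · exact ⟨2, by omega, by simp [h], by split_ifs <;> omega, .inl ⟨rfl, by simp⟩⟩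
    · exact ⟨0, by omega, by split_ifs <;> omega, by simp [h], .inl ⟨rfl, by simp⟩⟩
    · exact ⟨1, by omega, by split_ifs <;> omega, by split_ifs <;> omega, .inr h⟩

theorem result : ∃ (n : ℕ) (B : Set (Fin n →₀ ℕ)) (i : ℕ), B.Finite ∧ ∀ l, 1 ≤ l →
    (∀ a, betti (mi ℚ B ^ l) i a = 0) ∧ ∃ a, betti (mi (ZMod 2) B ^ l) i a ≠ 0 := by
  have e : ∀ (K : Type) [Field K] l, mi K (BB 1) ^ l = mi K (Sm (BB 1) l) :=
    fun K _ l => span_pow _ l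
  refine ⟨8, BB 1, 5, BB_fin _, fun l hl => ⟨fun a => ?_, pt 2 (2 * l), ?_⟩⟩
  · rw [e, betti_zero]
    exact vanQ l a
  · rw [e, Ne, betti_zero, dl_d0 hl]
    exact d0

end Pool.Agent.Results.MP_76aa63_al.Yes
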